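import Pool.Agent.KTK.Stmts

/-!
# KTK, row CLS: the closing lemma
-/

set_option autoImplicit false

namespace Pool.Agent.KTK.H45

open Pool.Agent.PRT Pool.Agent.KTK
open scoped ContDiff

/-- coordinates of a vector in the basis `e, f` -/
noncomputable def co (e f u : E) : ℝ × ℝ := (cr u f / cr e f, cr e u / cr e f)

theorem co_inv {e f : E} (h : cr e f ≠ 0) (u : E) :
    u = (co e f u).1 • e + (co e f u).2 • f := by
  have h' : e.1 * f.2 - e.2 * f.1 ≠ 0 := h
  ext
  · simp only [co, cr, Prod.fst_add, Prod.smul_fst, smul_eq_mul]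
    rw [div_mul_eq_mul_div, div_mul_eq_mul_div, ← add_div, eq_div_iff h']
    ring
  · simp only [co, cr, Prod.snd_add, Prod.smul_snd, smul_eq_mul]
    rw [div_mul_eq_mul_div, div_mul_eq_mul_div, ← add_div, eq_div_iff h']
    ring

theorem co_lin {e f : E} (h : cr e f ≠ 0) (ξ η : ℝ) (w : E) :
    (co e f (ξ • e + η • f + w)).1 = ξ + cr w f / cr e f ∧
      (co e f (ξ • e + η • f + w)).2 = η + cr e w / cr e f := by
  have h' : e.1 * f.2 - e.2 * f.1 ≠ 0 := h
  constructor
  · simp only [co, cr, Prod.fst_add, Prod.snd_add, Prod.smul_fst, Prod.smul_snd, smul_eq_mul]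
    rw [div_eq_iff h', add_mul ξ, div_mul_cancel₀ _ h']
    ring
  · simp only [co, cr, Prod.fst_add, Prod.snd_add, Prod.smul_fst, Prod.smul_snd, smul_eq_mul]
    rw [div_eq_iff h', add_mul η, div_mul_cancel₀ _ h']
    ring

theorem continuous_co (e f : E) : Continuous (co e f) := by
  unfold co cr
  fun_prop

/-- the estimates of one step -/
theorem step {C0 D f0 : ℝ} (hC0 : 0 < C0) (hD : 4 ≤ D) (hf1 : 64 * C0 * Real.exp (2 * D - f0) ≤ 1)
    {R T R' T' θ' s α β : ℝ} (ha : 0 < α) (hb : 0 < β)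
    (hs : s = 2 * D - Real.log α + Real.log β) (haD : Real.log α ≤ D) (hbD : -D ≤ Real.log β)
    (h1 : R' ≤ R + D / 2 - s) (h2 : T - D / 2 + s ≤ T')
    (h3 : 2 * R ≤ R' - θ' - (f0 - 2 * D)) (h4 : 2 * R ≤ T' - θ' - (f0 - 2 * D))
    (h5 : 2 * T ≤ R' - θ' - (f0 - 2 * D)) (h6 : 2 * T ≤ T' - θ' - (f0 - 2 * D))
    {ξ η φ1 φ2 : ℝ} (hξ : |ξ| ≤ Real.exp R) (hη : |η| ≤ Real.exp T)
    (hφ1 : |φ1 - α * ξ| ≤ 2 * C0 * (|ξ| + |η|) ^ 2 * Real.exp θ')
    (hφ2 : |φ2 - β * η| ≤ 2 * C0 * (|ξ| + |η|) ^ 2 * Real.exp θ') :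
    (ξ = Real.exp R → 2 * Real.exp R' ≤ φ1) ∧ (ξ = -Real.exp R → φ1 ≤ -(2 * Real.exp R')) ∧
      |φ2| ≤ Real.exp T' / 2 := by
  have hsq : (|ξ| + |η|) ^ 2 ≤ 2 * Real.exp (2 * R) + 2 * Real.exp (2 * T) := by
    have e1 : Real.exp (2 * R) = Real.exp R ^ 2 := by rw [← Real.exp_nat_mul]; norm_num
    have e2 : Real.exp (2 * T) = Real.exp T ^ 2 := by rw [← Real.exp_nat_mul]; norm_num
    rw [e1, e2]
    have h7 : (|ξ| + |η|) ^ 2 ≤ (Real.exp R + Real.exp T) ^ 2 := by
      have := abs_nonneg ξ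
      have := abs_nonneg η
      gcongr
    nlinarith [sq_nonneg (Real.exp R - Real.exp T)]
  have key : ∀ X : ℝ, 2 * R ≤ X - θ' - (f0 - 2 * D) → 2 * T ≤ X - θ' - (f0 - 2 * D) →
      2 * C0 * (|ξ| + |η|) ^ 2 * Real.exp θ' ≤ Real.exp X / 8 := by
    intro X hR hT
    have k1 : Real.exp (2 * R) * Real.exp θ' ≤ Real.exp (2 * D - f0) * Real.exp X := by
      rw [← Real.exp_add, ← Real.exp_add]
      exact Real.exp_le_exp.2 (by linarith)
    have k2 : Real.exp (2 * T) * Real.exp θ' ≤ Real.exp (2 * D - f0) * Real.exp X := by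
      rw [← Real.exp_add, ← Real.exp_add]
      exact Real.exp_le_exp.2 (by linarith)
    have k3 : 64 * C0 * Real.exp (2 * D - f0) * Real.exp X ≤ 1 * Real.exp X :=
      mul_le_mul_of_nonneg_right hf1 (Real.exp_pos _).le
    calc 2 * C0 * (|ξ| + |η|) ^ 2 * Real.exp θ'
        ≤ 2 * C0 * (2 * Real.exp (2 * R) + 2 * Real.exp (2 * T)) * Real.exp θ' := by gcongr
      _ = 4 * C0 * (Real.exp (2 * R) * Real.exp θ') + 4 * C0 * (Real.exp (2 * T) * Real.exp θ') := by
          ring
      _ ≤ 4 * C0 * (Real.exp (2 * D - f0) * Real.exp X) +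
            4 * C0 * (Real.exp (2 * D - f0) * Real.exp X) := by gcongr
      _ ≤ Real.exp X / 8 := by nlinarith
  have hE3 : 3 ≤ Real.exp (D / 2) := by
    have := Real.add_one_le_exp (D / 2)
    linarith
  have kR := hφ1.trans (key R' h3 h5)
  have kT := hφ2.trans (key T' h4 h6)
  have hα : 3 * Real.exp R' ≤ α * Real.exp R := by
    have h7 : Real.exp (D - s) ≤ α := by
      rw [← Real.exp_log ha]
      exact Real.exp_le_exp.2 (by linarith)
    calc 3 * Real.exp R' ≤ Real.exp (D / 2) * Real.exp R' := by gcongr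
      _ = Real.exp (D / 2 + R') := (Real.exp_add _ _).symm
      _ ≤ Real.exp (D - s + R) := Real.exp_le_exp.2 (by linarith)
      _ = Real.exp (D - s) * Real.exp R := Real.exp_add _ _
      _ ≤ α * Real.exp R := by gcongr
  have hβ : 3 * (β * Real.exp T) ≤ Real.exp T' := by
    have h7 : β ≤ Real.exp (s - D) := by
      rw [← Real.exp_log hb]
      exact Real.exp_le_exp.2 (by linarith)
    calc 3 * (β * Real.exp T) ≤ Real.exp (D / 2) * (Real.exp (s - D) * Real.exp T) := by gcongr
      _ = Real.exp (D / 2 + (s - D + T)) := by rw [Real.exp_add, Real.exp_add]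
      _ ≤ Real.exp T' := Real.exp_le_exp.2 (by linarith)
  have pR := Real.exp_pos R'
  have pT := Real.exp_pos T'
  refine ⟨fun hx => ?_, fun hx => ?_, ?_⟩
  · subst hx
    have := (abs_le.1 kR).1
    linarith
  · subst hx
    have := (abs_le.1 kR).2
    have h8 : α * -Real.exp R = -(α * Real.exp R) := by ring
    rw [h8] at this
    linarith
  · have h8 : |β * η| ≤ β * Real.exp T := by
      rw [abs_mul, abs_of_pos hb]
      gcongr
    have h9 : |φ2| ≤ |φ2 - β * η| + |β * η| := by
      have := abs_add_le (φ2 - β * η) (β * η)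
      simpa using this
    linarith

/-- **CLSX**: the closing lemma with an explicit closeness -/
theorem clsx (hANG : AngStmt) (hBOX : BoxStmt) (hCHN : ChnStmt) (hCRO : CroStmt)
    (g : E → E) (D : ℝ) (hg : Cs g) (hb : ∀ z, ‖fderiv ℝ g z‖ ≤ Real.exp D / 2) (hD : 4 ≤ D)
    (C0 : ℝ) (hC0 : 0 < C0) (hq : ∀ z h, ‖g (z + h) - g z - fderiv ℝ g z h‖ ≤ C0 * ‖h‖ ^ 2)
    (ρ : ℝ) (hρ0 : 0 < ρ) (hρ : 5000 * (1 + C0) * Real.exp (3 * D) * ρ ≤ 1)
    (N : ℕ) (x e f : ℕ → E) (α β : ℕ → ℝ) (hS : Sg g D N x e f α β)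
    (j j' : ℕ) (hjj : j < j') (hjN : j' < N) (hGj : Gt (df D α β) (D / 100) N j)
    (hGj' : Gt (df D α β) (D / 100) N j') (a b : ℤ) (hx : ‖x j' - x j - iv a b‖ ≤ ρ)
    (he : ‖e j' - e j‖ ≤ ρ) (hf : ‖f j' - f j‖ ≤ ρ) :
    ∃ y, g^[j' - j] y = y + iv a b := by
  obtain ⟨f0, hf0, hf1, hfρ⟩ : ∃ f0 : ℝ, 0 ≤ f0 ∧ 64 * C0 * Real.exp (2 * D - f0) ≤ 1 ∧
      ρ ≤ Real.exp (-f0) / (24 * Real.exp (D / 2 + 1)) := by
    have hρ1 : 24 * Real.exp (D / 2 + 1) * ρ ≤ 1 := by
      have h1 : 24 * Real.exp (D / 2 + 1) ≤ 5000 * (1 + C0) * Real.exp (3 * D) := by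
        have h2 : Real.exp (D / 2 + 1) ≤ Real.exp (3 * D) := Real.exp_le_exp.2 (by linarith)
        have h3 := Real.exp_pos (3 * D)
        nlinarith [mul_pos hC0 h3]
      exact (mul_le_mul_of_nonneg_right h1 hρ0.le).trans hρ
    have hρ2 : 64 * C0 * Real.exp (2 * D) * (24 * Real.exp (D / 2 + 1) * ρ) ≤ 1 := by
      have h1 : 64 * C0 * Real.exp (2 * D) * (24 * Real.exp (D / 2 + 1)) ≤
          5000 * (1 + C0) * Real.exp (3 * D) := by
        have h2 : Real.exp (2 * D) * Real.exp (D / 2 + 1) ≤ 3 * Real.exp (3 * D) := by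
          have h4 : Real.exp (D / 2 + 1) ≤ 3 * Real.exp D := by
            have h5 := Real.exp_one_lt_d9
            calc Real.exp (D / 2 + 1) = Real.exp (D / 2) * Real.exp 1 := Real.exp_add _ _
              _ ≤ Real.exp D * 3 := by
                have h6 : Real.exp (D / 2) ≤ Real.exp D := Real.exp_le_exp.2 (by linarith)
                have h7 : Real.exp 1 ≤ 3 := by linarith
                gcongr
              _ = 3 * Real.exp D := mul_comm _ _
          calc Real.exp (2 * D) * Real.exp (D / 2 + 1) ≤ Real.exp (2 * D) * (3 * Real.exp D) := by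
                gcongr
            _ = 3 * (Real.exp (2 * D) * Real.exp D) := by ring
            _ = 3 * Real.exp (3 * D) := by rw [← Real.exp_add]; ring_nf
        have h3 := Real.exp_pos (3 * D)
        calc 64 * C0 * Real.exp (2 * D) * (24 * Real.exp (D / 2 + 1))
            = 1536 * C0 * (Real.exp (2 * D) * Real.exp (D / 2 + 1)) := by ring
          _ ≤ 1536 * C0 * (3 * Real.exp (3 * D)) := by gcongr
          _ ≤ 5000 * (1 + C0) * Real.exp (3 * D) := by nlinarith [mul_pos hC0 h3]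
      calc 64 * C0 * Real.exp (2 * D) * (24 * Real.exp (D / 2 + 1) * ρ)
          = 64 * C0 * Real.exp (2 * D) * (24 * Real.exp (D / 2 + 1)) * ρ := by ring
        _ ≤ 5000 * (1 + C0) * Real.exp (3 * D) * ρ := mul_le_mul_of_nonneg_right h1 hρ0.le
        _ ≤ 1 := hρ
    refine ⟨max 0 (2 * D + Real.log (64 * C0)), le_max_left _ _, ?_, ?_⟩
    · have h1 : 2 * D - max 0 (2 * D + Real.log (64 * C0)) ≤ -Real.log (64 * C0) := by
        have := le_max_right (0 : ℝ) (2 * D + Real.log (64 * C0))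
        linarith
      calc 64 * C0 * Real.exp (2 * D - max 0 (2 * D + Real.log (64 * C0)))
          ≤ 64 * C0 * Real.exp (-Real.log (64 * C0)) := by gcongr
        _ = 1 := by
          rw [Real.exp_neg, Real.exp_log (by positivity)]
          field_simp
    · rw [le_div_iff₀ (by positivity), mul_comm ρ]
      rcases max_choice (0 : ℝ) (2 * D + Real.log (64 * C0)) with h | h
      · rw [h, neg_zero, Real.exp_zero]
        exact hρ1
      · rw [h, Real.exp_neg, Real.exp_add (2 * D), Real.exp_log (by positivity), ← one_div,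
          le_div_iff₀ (by positivity)]
        linarith
  obtain ⟨c, hc⟩ : ∃ c, c = Real.exp (-f0) := ⟨_, rfl⟩
  rw [← hc] at hfρ
  have hc0 : 0 < c := hc ▸ Real.exp_pos _
  have hc1 : c ≤ 1 := by
    rw [hc]
    exact Real.exp_le_one_iff.2 (by linarith)
  replace hx := hx.trans hfρ
  replace he := he.trans hfρ
  replace hf := hf.trans hfρ
  obtain ⟨hA1, hA2, hA3⟩ := hANG g D N x e f α β hg hb (by linarith) hS
  obtain ⟨n, hn⟩ : ∃ n, n = j' - j := ⟨_, rfl⟩
  have hn1 : 1 ≤ n := by omega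
  have hjn : j + n = j' := by omega
  -- the angle at the end
  have hdf : df D α β j' ≤ D / 100 := by
    have h1 := hGj'.1 (j' + 1) (by omega) (by omega)
    simpa using h1
  have hθn : an e f j' ≤ D / 2 + 1 := by
    have h1 := hA2 j' hjN (by linarith)
    linarith
  obtain ⟨R, T, hR0, hT0, hRn, hTn, hRT, hst⟩ := hBOX D n (fun l => df D α β (j + l))
    (fun l => an e f (j + l)) (by linarith) (fun i hi => hA1 (j + i) (by omega))
    (fun i hi => by
      have h1 := hGj.1 (j + i) (by omega) (by omega)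
      rw [Finset.sum_Ico_add (fun l => df D α β l) 0 i j, zero_add, Nat.add_comm i j]
      have h2 : ((j + i : ℕ) : ℝ) - j = i := by push_cast; ring
      rw [h2] at h1
      exact h1)
    (fun i hi => by
      have h1 := hGj'.2 (j + i) (by omega)
      rw [Finset.sum_Ico_add (fun l => df D α β l) i n j, Nat.add_comm i j, Nat.add_comm n j, hjn]
      have h2 : (j' : ℝ) - ((j + i : ℕ) : ℝ) = n - i := by
        rw [← hjn]
        push_cast
        ring
      rw [h2] at h1
      exact h1)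
    (fun i hi h => hA2 (j + i) (by omega) h)
    (fun i hi => by
      have h1 := (abs_le.1 (hA3 (j + i) (by omega))).1
      show an e f (j + i) ≤ an e f (j + (i + 1)) + df D α β (j + i)
      rw [← Nat.add_assoc]
      linarith)
    (by
      show an e f (j + n) ≤ D / 2 + 1
      rw [hjn]
      exact hθn) f0
  -- the angle as an exponential
  have hcr : ∀ i ≤ N, 1 / |cr (e i) (f i)| = Real.exp (an e f i) := by
    intro i hi
    unfold an
    rw [Real.exp_neg, Real.exp_log (abs_pos.2 (hS.c0 i hi)), one_div]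
  -- the chain
  obtain ⟨p, hp1, hp2, hp3⟩ := hCHN n (fun i => if i < n then Real.exp (R i) else 2 * c)
    (fun i => if i < n then Real.exp (T i) else c / 2)
    (fun i p => co (e (j + i + 1)) (f (j + i + 1))
      (g (x (j + i) + (p.1 • e (j + i) + p.2 • f (j + i))) - x (j + i + 1)))
    (fun p => co (e j') (f j') (x j + (p.1 • e j + p.2 • f j) + iv a b - x j')) hn1
    (fun i hi => by
      simp only [hi, if_true]
      exact ⟨Real.exp_pos _, Real.exp_pos _⟩)
    (fun i hi => by
      have hgc : Continuous g := hg.sm.continuous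
      have h1 := continuous_co (e (j + i + 1)) (f (j + i + 1))
      exact h1.comp (by fun_prop))
    (by
      have h1 := continuous_co (e j') (f j')
      exact h1.comp (by fun_prop))
    (fun i hi p hp hp' => by
      simp only [hi, if_true] at hp hp' ⊢
      obtain ⟨q1, q2, q3, q4, q5, q6⟩ := hst i hi
      have hji : j + i < N := by omega
      have hc2 := hCRO g C0 (x (j + i)) (e (j + i)) (f (j + i)) (e (j + i + 1)) (f (j + i + 1))
        (α (j + i)) (β (j + i)) p.1 p.2 hq (hS.e1 _ hji.le) (hS.f1 _ hji.le)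
        (hS.e1 _ hji) (hS.f1 _ hji) (hS.he _ hji) (hS.hf _ hji) (hS.c0 _ hji)
      rw [← hS.hx _ hji, div_eq_mul_one_div (2 * C0 * (|p.1| + |p.2|) ^ 2), hcr _ hji] at hc2
      have hst' := step hC0 hD hf1 (hS.a0 _ hji) (hS.b0 _ hji) rfl (hS.aD _ hji) (hS.bD _ hji)
        q1 q2 q3 q4 q5 q6 hp hp' hc2.1 hc2.2
      have hr : (if i + 1 < n then Real.exp (R (i + 1)) else 2 * c) ≤ 2 * Real.exp (R (i + 1)) := by
        split_ifs with h
        · have := Real.exp_pos (R (i + 1))
          linarith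
        · have h' : i + 1 = n := by omega
          rw [h', hRn, hc]
      have ht : Real.exp (T (i + 1)) / 2 ≤ (if i + 1 < n then Real.exp (T (i + 1)) else c / 2) := by
        split_ifs with h
        · have := Real.exp_pos (T (i + 1))
          linarith
        · have h' : i + 1 = n := by omega
          rw [h', hTn, hc]
      refine ⟨fun h => hr.trans (hst'.1 h), fun h => (hst'.2.1 h).trans (neg_le_neg hr), ?_⟩
      exact hst'.2.2.trans ht)
    (fun p hp hp' => by
      have h0n : 0 < n := hn1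
      simp only [h0n, if_true, lt_irrefl, if_false, hR0, hT0, ← hc] at hp hp' ⊢
      have hcn : cr (e j') (f j') ≠ 0 := hS.c0 _ hjN.le
      have hu : x j + (p.1 • e j + p.2 • f j) + iv a b - x j' = p.1 • e j' + p.2 • f j' +
          (-(x j' - x j - iv a b) - p.1 • (e j' - e j) - p.2 • (f j' - f j)) := by
        simp only [smul_sub]
        abel
      rw [hu]
      obtain ⟨l1, l2⟩ := co_lin hcn p.1 p.2
        (-(x j' - x j - iv a b) - p.1 • (e j' - e j) - p.2 • (f j' - f j))
      rw [l1, l2]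
      have hw : ‖-(x j' - x j - iv a b) - p.1 • (e j' - e j) - p.2 • (f j' - f j)‖ ≤
          3 * (c / (24 * Real.exp (D / 2 + 1))) := by
        have n1 : ‖p.1 • (e j' - e j)‖ ≤ 1 * (c / (24 * Real.exp (D / 2 + 1))) := by
          rw [norm_smul, Real.norm_eq_abs]
          exact mul_le_mul (hp.trans hc1) he (norm_nonneg _) zero_le_one
        have n2 : ‖p.2 • (f j' - f j)‖ ≤ 1 * (c / (24 * Real.exp (D / 2 + 1))) := by
          rw [norm_smul, Real.norm_eq_abs]
          exact mul_le_mul (hp'.trans hc1) hf (norm_nonneg _) zero_le_one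
        have n3 := norm_sub_le (-(x j' - x j - iv a b) - p.1 • (e j' - e j)) (p.2 • (f j' - f j))
        have n4 := norm_sub_le (-(x j' - x j - iv a b)) (p.1 • (e j' - e j))
        rw [norm_neg] at n4
        linarith
      have hexp : 1 / |cr (e j') (f j')| ≤ Real.exp (D / 2 + 1) := by
        rw [hcr _ hjN.le]
        exact Real.exp_le_exp.2 hθn
      have hbd : 2 * (3 * (c / (24 * Real.exp (D / 2 + 1)))) * Real.exp (D / 2 + 1) = c / 4 := by
        have := (Real.exp_pos (D / 2 + 1)).ne'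
        field_simp
        ring
      obtain ⟨w, hwd⟩ : ∃ w, w = -(x j' - x j - iv a b) - p.1 • (e j' - e j) -
        p.2 • (f j' - f j) := ⟨_, rfl⟩
      rw [← hwd] at hw ⊢
      have b1 : |cr w (f j') / cr (e j') (f j')| ≤ c / 4 := by
        rw [abs_div, div_eq_mul_one_div, ← hbd]
        have h1 := abs_cr_le w (f j')
        rw [hS.f1 _ hjN.le, mul_one] at h1
        have h2 : |cr w (f j')| ≤ 2 * (3 * (c / (24 * Real.exp (D / 2 + 1)))) := by linarith
        exact mul_le_mul h2 hexp (by positivity) (by positivity)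
      have b2 : |cr (e j') w / cr (e j') (f j')| ≤ c / 4 := by
        rw [abs_div, div_eq_mul_one_div, ← hbd]
        have h1 := abs_cr_le (e j') w
        rw [hS.e1 _ hjN.le, mul_one] at h1
        have h2 : |cr (e j') w| ≤ 2 * (3 * (c / (24 * Real.exp (D / 2 + 1)))) := by linarith
        exact mul_le_mul h2 hexp (by positivity) (by positivity)
      obtain ⟨b11, b12⟩ := abs_le.1 b1
      obtain ⟨b21, b22⟩ := abs_le.1 b2
      obtain ⟨p11, p12⟩ := abs_le.1 hp
      refine ⟨abs_le.2 ⟨by linarith, by linarith⟩, fun h => ?_, fun h => ?_⟩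
      · rw [h]
        linarith
      · rw [h]
        linarith)
  -- the orbit
  have horb : ∀ i, i < n → g^[i] (x j + ((p 0).1 • e j + (p 0).2 • f j)) =
      x (j + i) + ((p i).1 • e (j + i) + (p i).2 • f (j + i)) := by
    intro i
    induction i with
    | zero => intro _; rfl
    | succ i ih =>
      intro hi
      rw [Function.iterate_succ_apply', ih (by omega)]
      have h1 := co_inv (hS.c0 (j + i + 1) (by omega))
        (g (x (j + i) + ((p i).1 • e (j + i) + (p i).2 • f (j + i))) - x (j + i + 1))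
      have h2 := hp2 i hi
      rw [h2] at h1
      rw [sub_eq_iff_eq_add] at h1
      rw [h1]
      exact add_comm _ _
  refine ⟨x j + ((p 0).1 • e j + (p 0).2 • f j), ?_⟩
  rw [← hn]
  obtain ⟨m, rfl⟩ : ∃ m, n = m + 1 := ⟨n - 1, by omega⟩
  rw [Function.iterate_succ_apply', horb m (by omega)]
  have hjm : j + m + 1 = j' := by omega
  have h1 := co_inv (hS.c0 j' hjN.le)
    (g (x (j + m) + ((p m).1 • e (j + m) + (p m).2 • f (j + m))) - x j')
  have h2 := co_inv (hS.c0 j' hjN.le) (x j + ((p 0).1 • e j + (p 0).2 • f j) + iv a b - x j')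
  have h3 := hp3
  simp only [Nat.add_sub_cancel, hjm] at h3
  rw [h3, ← h2] at h1
  exact sub_left_injective h1

theorem cls (hANG : AngStmt) (hBOX : BoxStmt) (hCHN : ChnStmt) (hCRO : CroStmt)
    (hQDR : QdrStmt) : ClsStmt := by
  intro g D hg hb hD
  obtain ⟨C0, hC0, hq⟩ := hQDR g hg.sm hg.eqv
  refine ⟨1 / (5000 * (1 + C0) * Real.exp (3 * D)), by positivity, ?_⟩
  intro N x e f α β hS j j' hjj hjN hGj hGj' a b hx he hf
  refine clsx hANG hBOX hCHN hCRO g D hg hb hD C0 hC0 hq _ (by positivity) ?_ N x e f α β hS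
    j j' hjj hjN hGj hGj' a b hx he hf
  rw [mul_one_div_cancel (by positivity)]

end Pool.Agent.KTK.H45
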