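import Pool.Agent.KTK.Stmts2

/-!
# KTK, row MXB: the sequence `bg`
-/

set_option autoImplicit false

namespace Pool.Agent.KTK.H45

open Pool.Agent.PRT Pool.Agent.KTK
open scoped ContDiff

theorem mg_le_bg (F : E → E) {m n : ℕ} (h : m ≤ n) : mg F m ≤ bg F n :=
  Finset.le_sup' (mg F) (Finset.mem_range.2 (Nat.lt_succ_of_le h))

theorem bg_le {F : E → E} {n : ℕ} {c : ℝ} (h : ∀ m ≤ n, mg F m ≤ c) : bg F n ≤ c :=
  Finset.sup'_le _ _ fun m hm => h m (Nat.lt_succ_iff.1 (Finset.mem_range.1 hm))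

theorem mxb (hMXA : MxaStmt) : MxbStmt := by
  intro F hF
  obtain ⟨h1, -, h3, h4⟩ := hMXA F hF
  refine ⟨fun m n hmn => bg_le fun l hl => mg_le_bg F (hl.trans hmn),
    fun n => (h3 0).trans (mg_le_bg F (Nat.zero_le n)), fun m n => bg_le fun l hl => ?_,
    fun m n hmn => mg_le_bg F hmn,
    fun m n z hmn => (h1 m z).trans (Real.exp_le_exp.2 (mg_le_bg F hmn))⟩
  rcases le_total l m with h | h
  · exact (mg_le_bg F h).trans (le_add_of_nonneg_right ((h3 0).trans (mg_le_bg F (Nat.zero_le n))))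
  · obtain ⟨k, rfl⟩ := Nat.exists_eq_add_of_le h
    exact (h4 m k).trans (add_le_add (mg_le_bg F le_rfl) (mg_le_bg F (by omega)))

end Pool.Agent.KTK.H45
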